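import Pool.Agent.H49.CZ.Stm
import Pool.Agent.H91.GR.Pat

set_option autoImplicit false

/-! Project CZ (helper49), module TRP (helper91): the dependent triples survive a general specialisation. -/

namespace Pool.Agent.H91.CZ

open Pool.Agent.H77.TF Pool.Agent.H77.GR Pool.Agent.H49.CZ Pool.Agent.H91.GR

theorem map_zero_iff {K : Type} [Field K] {R : Subring K} {k : Type} [Field k] (φ : R →+* k)
    (x : R) (h : (x : K)⁻¹ ∈ R) : φ x = 0 ↔ (x : K) = 0 := by
  constructor
  · intro h1
    by_contra h2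
    have h3 : x * ⟨(x : K)⁻¹, h⟩ = 1 := by
      apply Subtype.ext
      show (x : K) * (x : K)⁻¹ = 1
      exact mul_inv_cancel₀ h2
    have h4 := congrArg φ h3
    rw [map_mul, h1, zero_mul, map_one] at h4
    exact zero_ne_one h4
  · intro h1
    have h2 : x = 0 := Subtype.ext h1
    rw [h2, map_zero]

/-- TRP -/
theorem t_TRP : S_TRP := by
  classical
  intro K _ n A hA
  refine ⟨(Finset.univ.image fun t : Fin n × Fin 3 => (A t.1 t.2)⁻¹) ∪
    ((Finset.univ.image fun t : (Fin n × Fin n) × (Fin 3 × Fin 3) =>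
      (A t.1.1 t.2.1 * A t.1.2 t.2.2 - A t.1.1 t.2.2 * A t.1.2 t.2.1)⁻¹) ∪
    (Finset.univ.image fun t : Fin n × Fin n × Fin n =>
      ((Matrix.of ![A t.1, A t.2.1, A t.2.2]).det)⁻¹)), ?_⟩
  intro R AR hF hAR k _ φ
  have e : ∀ i p, (AR i p : K) = A i p := fun i p => congrFun (congrFun hAR i) p
  have f1 : ∀ i p, (A i p)⁻¹ ∈ R := fun i p => hF (by
    rw [Finset.mem_coe, Finset.mem_union]
    exact Or.inl (Finset.mem_image.2 ⟨(i, p), Finset.mem_univ _, rfl⟩))
  have f2 : ∀ i j p q, (A i p * A j q - A i q * A j p)⁻¹ ∈ R := fun i j p q => hF (by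
    rw [Finset.mem_coe, Finset.mem_union, Finset.mem_union]
    exact Or.inr (Or.inl (Finset.mem_image.2 ⟨((i, j), (p, q)), Finset.mem_univ _, rfl⟩)))
  have f3 : ∀ i j l, ((Matrix.of ![A i, A j, A l]).det)⁻¹ ∈ R := fun i j l => hF (by
    rw [Finset.mem_coe, Finset.mem_union, Finset.mem_union]
    exact Or.inr (Or.inr (Finset.mem_image.2 ⟨(i, j, l), Finset.mem_univ _, rfl⟩)))
  have hS : Simple (mapA φ AR) := by
    constructor
    · intro i h
      refine hA.1 i ?_
      ext p
      have h1 : φ (AR i p) = 0 := congrFun h p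
      rw [map_zero_iff φ _ (by rw [e]; exact f1 i p), e] at h1
      exact h1
    · intro i j hij c hc
      obtain ⟨c', hc'⟩ := of_minors (x := A i) (y := A j) (hA.1 j) (fun p q => by
        have h1 := minors_of hc p q
        have h2 : φ (AR i p * AR j q - AR i q * AR j p) = 0 := by
          rw [map_sub, map_mul, map_mul, sub_eq_zero]
          exact h1
        have h3 : ((AR i p * AR j q - AR i q * AR j p : R) : K) =
            A i p * A j q - A i q * A j p := by
          push_cast
          rw [e, e, e, e]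
        rw [map_zero_iff φ _ (by rw [h3]; exact f2 i j p q), h3, sub_eq_zero] at h2
        exact h2)
      exact hA.2 i j hij c' hc'
  refine ⟨hS, fun i j l => ?_⟩
  rcases eq_or_ne i j with rfl | hij
  · rw [mem_span_self_iff hA, mem_span_self_iff hS]
  · rw [mem_span_iff_det (hA.1 j) (hA.2 i j hij), mem_span_iff_det (hS.1 j) (hS.2 i j hij),
      det_mapA]
    have h3 : ((Matrix.of ![AR i, AR j, AR l]).det : K) = (Matrix.of ![A i, A j, A l]).det := by
      have h4 := det_mapA R.subtype AR i j l
      rw [hAR] at h4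
      exact h4.symm
    rw [map_zero_iff φ _ (by rw [h3]; exact f3 i j l), h3]

end Pool.Agent.H91.CZ
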